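import Mathlib
import Pool.Agent.Lib.MP_11a02e_co.Defs
import Pool.Agent.Lib.MP_11a02e_co.Finite
import Pool.Agent.Lib.MP_11a02e_co.Limits

namespace Pool.Agent.Results.MP_11a02e_co.BandwidthUpper

open Filter Topology Pool.Agent.MP_11a02e_co

/-- `c₁ = (β^k / k!) (k - (k-1)/q)`. -/
noncomputable def c₁ (k q : ℕ) (β : ℝ) : ℝ :=
  β ^ k / k.factorial * ((k : ℝ) - ((k : ℝ) - 1) / q)

/-- `c₂ = (β^(k-1) / ((q+1) k!)) (k - (k-1) β)`. -/
noncomputable def c₂ (k q : ℕ) (β : ℝ) : ℝ :=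
  β ^ (k - 1) / (((q : ℝ) + 1) * k.factorial) * ((k : ℝ) - ((k : ℝ) - 1) * β)

/-- `c₃ = ((β - r)^k / ((q+1) k!)) q^(k-1)`. -/
noncomputable def c₃ (k q : ℕ) (β r : ℝ) : ℝ :=
  (β - r) ^ k / (((q : ℝ) + 1) * k.factorial) * (q : ℝ) ^ (k - 1)

/-- `β ∈ (0, 1/2]`, `1 = q β + r` with an integer `q ≥ 2` and `0 ≤ r < β`, and `β` is
exceptional: `r > (q-1)/(q²+q-1)`. -/
def Exceptional (q : ℕ) (β r : ℝ) : Prop :=
  0 < β ∧ β ≤ 1 / 2 ∧ 2 ≤ q ∧ 0 ≤ r ∧ r < β ∧ 1 = (q : ℝ) * β + r ∧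
    ((q : ℝ) - 1) / ((q : ℝ) ^ 2 + q - 1) < r

lemma bern (y : ℝ) (hy0 : 0 ≤ y) (hy1 : y < 1) (j : ℕ) :
    0 < y ^ (j + 2) - ((j : ℝ) + 2) * y + ((j : ℝ) + 1) := by
  induction j with
  | zero =>
    have : y ^ (0 + 2) - (((0 : ℕ) : ℝ) + 2) * y + (((0 : ℕ) : ℝ) + 1) = (1 - y) ^ 2 := by
      push_cast; ring
    rw [this]
    have : 0 < 1 - y := by linarith
    positivity
  | succ j ih =>
    have h1 : y ^ (j + 1 + 2) - (((j + 1 : ℕ) : ℝ) + 2) * y + (((j + 1 : ℕ) : ℝ) + 1)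
        = (y ^ (j + 2) - ((j : ℝ) + 2) * y + ((j : ℝ) + 1)) + (1 - y) * (1 - y ^ (j + 2)) := by
      push_cast; ring
    rw [h1]
    have h2 : y ^ (j + 2) ≤ 1 := pow_le_one₀ hy0 hy1.le
    have h3 : 0 ≤ (1 - y) * (1 - y ^ (j + 2)) := mul_nonneg (by linarith) (by linarith)
    linarith

/-- The new constant is strictly below the conjectured one. -/
lemma strict (k q : ℕ) (β r : ℝ) (hk : 2 ≤ k) (h : Exceptional q β r) :
    max (c₁ k q β) (c₂ k q β + c₃ k q β r / (q : ℝ) ^ (k - 1)) < c₂ k q β + c₃ k q β r := by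
  obtain ⟨hβ0, hβ1, hq, hr0, hrβ, h1, hex⟩ := h
  obtain ⟨j, rfl⟩ : ∃ j, k = j + 2 := ⟨k - 2, by omega⟩
  have hqR : (2 : ℝ) ≤ (q : ℝ) := by exact_mod_cast hq
  have hq0 : (0 : ℝ) < (q : ℝ) := by linarith
  have hF : (0 : ℝ) < ((j + 2).factorial : ℝ) := by positivity
  have hk1 : j + 2 - 1 = j + 1 := by omega
  have hx : 0 < β - r := by linarith
  unfold c₁ c₂ c₃
  rw [hk1]
  rw [max_lt_iff]
  constructor
  · -- `c₁ < c₂ + c₃`
    obtain ⟨y, hy⟩ : ∃ y : ℝ, y = (q : ℝ) * (β - r) / β := ⟨_, rfl⟩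
    have hy0 : 0 ≤ y := by rw [hy]; positivity
    have hD : (0 : ℝ) < (q : ℝ) ^ 2 + q - 1 := by nlinarith
    have hy1 : y < 1 := by
      rw [hy, div_lt_one hβ0]
      rw [div_lt_iff₀ hD] at hex
      -- `r (q²+q-1) > q - 1`, `1 = qβ + r`
      have h2 : (q : ℝ) * ((q : ℝ) * (β - r)) < (q : ℝ) * β := by
        nlinarith
      exact lt_of_mul_lt_mul_left h2 hq0.le
    have hb := bern y hy0 hy1 j
    have hxy : β - r = y * β / q := by rw [hy]; field_simp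
    have hpow : (β - r) ^ (j + 2) * (q : ℝ) ^ (j + 1) = y ^ (j + 2) * β ^ (j + 2) / q := by
      rw [hxy, div_pow, mul_pow]; field_simp; ring
    have hdiff : β ^ (j + 1) / (((q : ℝ) + 1) * ((j + 2).factorial : ℝ))
          * (((j + 2 : ℕ) : ℝ) - (((j + 2 : ℕ) : ℝ) - 1) * β)
        + (β - r) ^ (j + 2) / (((q : ℝ) + 1) * ((j + 2).factorial : ℝ)) * (q : ℝ) ^ (j + 1)
        - β ^ (j + 2) / ((j + 2).factorial : ℝ) * (((j + 2 : ℕ) : ℝ) - (((j + 2 : ℕ) : ℝ) - 1) / q)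
        = β ^ (j + 2) / (q * (((q : ℝ) + 1) * ((j + 2).factorial : ℝ)))
          * (y ^ (j + 2) - ((j : ℝ) + 2) * y + ((j : ℝ) + 1)) := by
      have e1 : (β - r) ^ (j + 2) / (((q : ℝ) + 1) * ((j + 2).factorial : ℝ)) * (q : ℝ) ^ (j + 1)
          = (y ^ (j + 2) * β ^ (j + 2) / q) / (((q : ℝ) + 1) * ((j + 2).factorial : ℝ)) := by
        rw [← hpow]; ring
      rw [e1]
      have e2 : y * β = (q : ℝ) * (β - r) := by rw [hy]; field_simp
      have e3 : r = 1 - (q : ℝ) * β := by linarith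
      have e4 : β ^ (j + 2) = β ^ (j + 1) * β := by ring
      rw [e4]
      push_cast
      field_simp
      rw [e3] at e2
      linear_combination ((j : ℝ) + 2) * e2
    have hpos : 0 < β ^ (j + 2) / (q * (((q : ℝ) + 1) * ((j + 2).factorial : ℝ)))
          * (y ^ (j + 2) - ((j : ℝ) + 2) * y + ((j : ℝ) + 1)) := by positivity
    rw [← hdiff] at hpos
    linarith
  · -- `c₃ / q^(k-1) < c₃`
    have h3 : 0 < (β - r) ^ (j + 2) / (((q : ℝ) + 1) * ((j + 2).factorial : ℝ))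
        * (q : ℝ) ^ (j + 1) := by positivity
    have h4 : (1 : ℝ) < (q : ℝ) ^ (j + 1) := one_lt_pow₀ (by linarith) (by omega)
    have h5 := div_lt_self h3 h4
    linarith

/-- The asymptotic upper bound. -/
lemma upper (k q : ℕ) (β r : ℝ) (hk : 2 ≤ k) (h : Exceptional q β r) (b : ℕ → ℕ)
    (hb : Tendsto (fun n : ℕ => (b n : ℝ) / n) atTop (𝓝 β)) :
    ∃ g : ℕ → ℝ, Tendsto g atTop
        (𝓝 (max (c₁ k q β) (c₂ k q β + c₃ k q β r / (q : ℝ) ^ (k - 1)))) ∧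
      ∀ᶠ n : ℕ in atTop, (bandwidth (graph n k (b n)) : ℝ) / (n : ℝ) ^ k ≤ g n := by
  obtain ⟨hβ0, hβ1, hq, hr0, hrβ, h1, hex⟩ := h
  obtain ⟨j, rfl⟩ : ∃ j, k = j + 2 := ⟨k - 2, by omega⟩
  obtain ⟨i, rfl⟩ : ∃ i, q = i + 1 := ⟨q - 1, by omega⟩
  have hk1 : j + 2 - 1 = j + 1 := by omega
  have hqR : (2 : ℝ) ≤ ((i + 1 : ℕ) : ℝ) := by exact_mod_cast hq
  have hiR : (1 : ℝ) ≤ (i : ℝ) := by push_cast at hqR; linarith
  have hrpos : 0 < r := by
    refine lt_of_le_of_lt ?_ hex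
    apply div_nonneg
    · linarith
    · nlinarith
  -- the remainder
  obtain ⟨r', hr'⟩ : ∃ r' : ℕ → ℕ, r' = fun n => n - (i + 1) * b n := ⟨_, rfl⟩
  have hqb : Tendsto (fun n : ℕ => (((i + 1) * b n : ℕ) : ℝ) / n) atTop
      (𝓝 (((i + 1 : ℕ) : ℝ) * β)) := by
    have := hb.const_mul ((i + 1 : ℕ) : ℝ)
    refine this.congr (fun n => ?_)
    push_cast; ring
  have hqβ : ((i + 1 : ℕ) : ℝ) * β < 1 := by linarith
  have hev1 : ∀ᶠ n : ℕ in atTop, (i + 1) * b n ≤ n := by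
    filter_upwards [hqb.eventually_lt_const hqβ, eventually_gt_atTop 0] with n hn hn0
    have hn0' : (0 : ℝ) < n := by exact_mod_cast hn0
    rw [div_lt_one hn0'] at hn
    have : (i + 1) * b n < n := by exact_mod_cast hn
    omega
  have hr'lim : Tendsto (fun n : ℕ => (r' n : ℝ) / n) atTop (𝓝 r) := by
    have h2 : Tendsto (fun n : ℕ => (1 : ℝ) - (((i + 1) * b n : ℕ) : ℝ) / n) atTop
        (𝓝 (1 - ((i + 1 : ℕ) : ℝ) * β)) := hqb.const_sub 1
    have e : 1 - ((i + 1 : ℕ) : ℝ) * β = r := by linarith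
    rw [e] at h2
    refine h2.congr' ?_
    filter_upwards [hev1, eventually_gt_atTop 0] with n hn hn0
    have hn0' : (n : ℝ) ≠ 0 := by positivity
    rw [hr', Nat.cast_sub hn]
    field_simp
  have hev2 : ∀ᶠ n : ℕ in atTop, r' n < b n := by
    filter_upwards [hr'lim.eventually_lt hb hrβ, eventually_gt_atTop 0] with n hn hn0
    have hn0' : (0 : ℝ) < n := by exact_mod_cast hn0
    rw [div_lt_div_iff_of_pos_right hn0'] at hn
    exact_mod_cast hn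
  -- limits of `phi`
  have hev3 : ∀ᶠ n : ℕ in atTop, b n ≤ b n := Eventually.of_forall (fun _ => le_refl _)
  have l1 := phi_lim j b b β β hb hb hev3
  have l2 := phi_lim j b r' β r hb hr'lim (hev2.mono (fun n hn => hn.le))
  have h1n : Tendsto (fun n : ℕ => (1 : ℝ) / n) atTop (𝓝 0) :=
    tendsto_const_div_atTop_nhds_zero_nat (1 : ℝ)
  have hb1 : Tendsto (fun n : ℕ => ((b n + 1 : ℕ) : ℝ) / n) atTop (𝓝 β) := by
    have := hb.add h1n
    rw [add_zero] at this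
    refine this.congr (fun n => ?_)
    push_cast; ring
  have l3 := choose_lim (j + 2) _ _ hb1
  have l4 : Tendsto (fun n : ℕ => (1 : ℝ) / (n : ℝ) ^ (j + 2)) atTop (𝓝 0) := by
    have h5 : Tendsto (fun n : ℕ => ((1 : ℝ) / n) ^ (j + 2)) atTop (𝓝 (0 ^ (j + 2))) :=
      h1n.pow (j + 2)
    rw [zero_pow (by omega)] at h5
    refine h5.congr (fun n => ?_)
    rw [div_pow, one_pow]
  -- the bound
  obtain ⟨A, hA⟩ : ∃ A : ℕ → ℝ, A = fun n => ((phi j (b n) (b n) : ℤ) : ℝ) / (n : ℝ) ^ (j + 2) :=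
    ⟨_, rfl⟩
  obtain ⟨R, hR⟩ : ∃ R : ℕ → ℝ, R = fun n => ((phi j (b n) (r' n) : ℤ) : ℝ) / (n : ℝ) ^ (j + 2) :=
    ⟨_, rfl⟩
  obtain ⟨C, hC⟩ : ∃ C : ℕ → ℝ, C = fun n => ((b n + 1).choose (j + 2) : ℝ) / (n : ℝ) ^ (j + 2) :=
    ⟨_, rfl⟩
  rw [← hA] at l1
  rw [← hR] at l2
  rw [← hC] at l3
  refine ⟨fun n => C n + (max ((i : ℝ) * A n / ((i : ℝ) + 1))
      (((i : ℝ) * A n + R n) / ((i : ℝ) + 2)) + 1 / (n : ℝ) ^ (j + 2)), ?_, ?_⟩
  · have hlim := l3.add ((((l1.const_mul (i : ℝ)).div_const ((i : ℝ) + 1)).max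
      (((l1.const_mul (i : ℝ)).add l2).div_const ((i : ℝ) + 2))).add l4)
    refine (hlim.congr (fun n => rfl)).mono_right (le_of_eq ?_)
    congr 1
    have hF : ((j + 2).factorial : ℝ) = ((j : ℝ) + 2) * ((j + 1).factorial : ℝ) := by
      rw [Nat.factorial_succ]; push_cast; ring
    have hF1 : ((j + 1).factorial : ℝ) ≠ 0 := by positivity
    have hj2 : ((j : ℝ) + 2) ≠ 0 := by positivity
    have hi1 : ((i : ℝ) + 1) ≠ 0 := by positivity
    have hi2 : ((i : ℝ) + 2) ≠ 0 := by positivity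
    have er : r = 1 - ((i : ℝ) + 1) * β := by push_cast at h1; linarith
    rw [add_zero, ← max_add_add_left]
    congr 1
    · unfold c₁
      rw [hF, sub_self, zero_pow (by omega)]
      push_cast
      field_simp
      ring
    · unfold c₂ c₃
      rw [hk1, hF]
      have hqp : (((i + 1 : ℕ) : ℝ)) ^ (j + 1) ≠ 0 := by positivity
      rw [mul_div_assoc, div_self hqp, mul_one]
      push_cast
      have e4 : β ^ (j + 2) = β ^ (j + 1) * β := by ring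
      rw [e4]
      obtain ⟨X, hX⟩ : ∃ X : ℝ, X = (β - r) ^ (j + 2) := ⟨_, rfl⟩
      rw [← hX]
      have hi3 : ((i : ℝ) + 1 + 1) ≠ 0 := by positivity
      rw [er]
      field_simp
      ring
  · filter_upwards [hev1, hev2, eventually_gt_atTop 0] with n hn1 hn2 hn0
    have hn0' : (0 : ℝ) < n := by exact_mod_cast hn0
    have hnp : (0 : ℝ) < (n : ℝ) ^ (j + 2) := pow_pos hn0' _
    obtain ⟨x, hx⟩ : ∃ x : ℝ, x = (i : ℝ) * ((phi j (b n) (b n) : ℤ) : ℝ) / ((i : ℝ) + 1) :=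
      ⟨_, rfl⟩
    obtain ⟨y, hy⟩ : ∃ y : ℝ, y = ((i : ℝ) * ((phi j (b n) (b n) : ℤ) : ℝ)
        + ((phi j (b n) (r' n) : ℤ) : ℝ)) / ((i : ℝ) + 2) := ⟨_, rfl⟩
    obtain ⟨E, hE⟩ : ∃ E : ℤ, E = max ⌈x⌉ ⌈y⌉ := ⟨_, rfl⟩
    have hi1 : (0 : ℝ) < (i : ℝ) + 1 := by linarith
    have hi2 : (0 : ℝ) < (i : ℝ) + 2 := by linarith
    have hφ0 : (0 : ℝ) ≤ ((phi j (b n) (b n) : ℤ) : ℝ) := by
      exact_mod_cast phi_nonneg j (b n) (b n)
    have hφr0 : (0 : ℝ) ≤ ((phi j (b n) (r' n) : ℤ) : ℝ) := by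
      exact_mod_cast phi_nonneg j (b n) (r' n)
    have hφr : ((phi j (b n) (r' n) : ℤ) : ℝ) ≤ ((phi j (b n) (b n) : ℤ) : ℝ) := by
      exact_mod_cast phi_mono j (b n) hn2.le
    have hxE : x ≤ (E : ℝ) := by
      rw [hE]
      exact le_trans (Int.le_ceil x) (by exact_mod_cast le_max_left _ _)
    have hyE : y ≤ (E : ℝ) := by
      rw [hE]
      exact le_trans (Int.le_ceil y) (by exact_mod_cast le_max_right _ _)
    have hx0 : 0 ≤ x := by rw [hx]; positivity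
    have hE0 : 0 ≤ E := by
      have : (0 : ℝ) ≤ (E : ℝ) := le_trans hx0 hxE
      exact_mod_cast this
    have hEφ : E ≤ phi j (b n) (b n) := by
      rw [hE]
      apply max_le
      · rw [Int.ceil_le, hx, div_le_iff₀ hi1]
        nlinarith
      · rw [Int.ceil_le, hy, div_le_iff₀ hi2]
        nlinarith
    have hc1 : (i : ℤ) * phi j (b n) (b n) ≤ (i + 1) * E := by
      have : (i : ℝ) * ((phi j (b n) (b n) : ℤ) : ℝ) ≤ ((i : ℝ) + 1) * (E : ℝ) := by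
        rw [hx, div_le_iff₀ hi1] at hxE
        linarith
      exact_mod_cast this
    have hc2 : (i : ℤ) * phi j (b n) (b n) + phi j (b n) (r' n) ≤ (i + 2) * E := by
      have : (i : ℝ) * ((phi j (b n) (b n) : ℤ) : ℝ) + ((phi j (b n) (r' n) : ℤ) : ℝ)
          ≤ ((i : ℝ) + 2) * (E : ℝ) := by
        rw [hy, div_le_iff₀ hi2] at hyE
        linarith
      exact_mod_cast this
    have hnn : n = (i + 1) * b n + r' n := by rw [hr']; show n = _ + (n - _); omega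
    have hfin := finite_bound n j (b n) i (r' n) E (by omega) hn2 hnn hE0 hEφ hc1 hc2
    have hfinR : (bandwidth (graph n (j + 2) (b n)) : ℝ)
        ≤ ((b n + 1).choose (j + 2) : ℝ) + (E : ℝ) := by exact_mod_cast hfin
    have hEle : (E : ℝ) ≤ max x y + 1 := by
      rw [hE]
      rcases le_total ⌈x⌉ ⌈y⌉ with hle | hle
      · rw [max_eq_right hle]
        have := (Int.ceil_lt_add_one y).le
        have := le_max_right x y
        linarith
      · rw [max_eq_left hle]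
        have := (Int.ceil_lt_add_one x).le
        have := le_max_left x y
        linarith
    have e1 : x / (n : ℝ) ^ (j + 2) = (i : ℝ) * A n / ((i : ℝ) + 1) := by
      rw [hx, hA]; ring
    have e2 : y / (n : ℝ) ^ (j + 2) = ((i : ℝ) * A n + R n) / ((i : ℝ) + 2) := by
      rw [hy, hA, hR]; ring
    rw [← e1, ← e2, max_div_div_right hnp.le, hC]
    show _ ≤ ((b n + 1).choose (j + 2) : ℝ) / (n : ℝ) ^ (j + 2)
      + (max x y / (n : ℝ) ^ (j + 2) + 1 / (n : ℝ) ^ (j + 2))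
    rw [← add_div, ← add_div]
    apply div_le_div_of_nonneg_right _ hnp.le
    linarith

/-- For every `k ≥ 2`, every exceptional `β` and every integer sequence `b ~ β n`,
`limsup B(G_{n,k,b}) / n^k ≤ max {c₁, c₂ + q^{-(k-1)} c₃} < c₂ + c₃`; in particular
`B(G_{n,k,b}) ~ (c₂ + c₃) n^k` fails. Exceptional `β` exist. -/
theorem result :
    (∃ (q : ℕ) (β r : ℝ), Exceptional q β r) ∧
    ∀ (k q : ℕ) (β r : ℝ), 2 ≤ k → Exceptional q β r →
      ∀ b : ℕ → ℕ, Tendsto (fun n : ℕ => (b n : ℝ) / n) atTop (𝓝 β) →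
        limsup (fun n : ℕ => (((bandwidth (graph n k (b n)) : ℝ) / (n : ℝ) ^ k : ℝ) : EReal)) atTop
            ≤ ((max (c₁ k q β) (c₂ k q β + c₃ k q β r / (q : ℝ) ^ (k - 1)) : ℝ) : EReal) ∧
        max (c₁ k q β) (c₂ k q β + c₃ k q β r / (q : ℝ) ^ (k - 1)) < c₂ k q β + c₃ k q β r ∧
        ¬ Tendsto (fun n : ℕ => (bandwidth (graph n k (b n)) : ℝ) / (n : ℝ) ^ k) atTop
            (𝓝 (c₂ k q β + c₃ k q β r)) := by
  refine ⟨⟨2, 3 / 8, 1 / 4, ?_⟩, ?_⟩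
  · refine ⟨by norm_num, by norm_num, le_refl _, by norm_num, by norm_num, by norm_num, ?_⟩
    norm_num
  · intro k q β r hk h b hb
    obtain ⟨g, hg, hgb⟩ := upper k q β r hk h b hb
    have hs := strict k q β r hk h
    refine ⟨?_, hs, ?_⟩
    · have hgE : Tendsto (fun n => ((g n : ℝ) : EReal)) atTop
          (𝓝 ((max (c₁ k q β) (c₂ k q β + c₃ k q β r / (q : ℝ) ^ (k - 1)) : ℝ) : EReal)) :=
        (continuous_coe_real_ereal.tendsto _).comp hg
      rw [← hgE.limsup_eq]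
      refine limsup_le_limsup ?_ (by isBoundedDefault) (by isBoundedDefault)
      filter_upwards [hgb] with n hn
      exact EReal.coe_le_coe_iff.mpr hn
    · intro hT
      have := le_of_tendsto_of_tendsto hT hg hgb
      linarith

end Pool.Agent.Results.MP_11a02e_co.BandwidthUpper
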